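import Pool.Agent.Lib.MP_359fef_co.GU

/-!
Small lemmas for the unitary final.
-/

namespace Pool.Agent.MP_359fef_co

open Finset Matrix Module

universe u

section
variable {K : Type u} [Field K] [Fintype K]

/-- (U1) the structure `Cj` from `card K = q^2` (σ = iterated Frobenius; q is a power of p). -/
theorem exists_Cj (q : ℕ) (h : Fintype.card K = q ^ 2) : ∃ C : Cj K, C.q = q := by
  obtain ⟨p, hp⟩ := CharP.exists K
  obtain ⟨m, hpp, hm⟩ := FiniteField.card K p
  have : Fact p.Prime := ⟨hpp⟩
  have hdvd : q ∣ p ^ (m : ℕ) := by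
    rw [← hm, h]
    exact dvd_pow_self q two_ne_zero
  obtain ⟨k, -, hk⟩ := (Nat.dvd_prime_pow hpp).1 hdvd
  refine ⟨⟨q, h, iterateFrobenius K p k, fun x => ?_⟩, rfl⟩
  rw [iterateFrobenius_def, hk]

variable {C : Cj K} {n : ℕ}

namespace UF

theorem abs_X_lt (C : Cj K) : 1 < |C.X| := by
  unfold Cj.X
  rw [abs_neg, Nat.abs_cast]
  have := C.two_le_q
  exact_mod_cast (by omega : 1 < C.q)

theorem X_pow_inj (C : Cj K) {i j : ℕ} (h : C.X ^ i = C.X ^ j) : i = j := by
  have h1 := congrArg abs h
  rw [abs_pow, abs_pow] at h1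
  have h2 := abs_X_lt C
  exact (pow_right_inj₀ (by linarith) h2.ne').1 h1

/-- `(x-1) ∏_{i<m} (x^(m+1) - x^i) = (x^(m+1)-1) ∏_{i<m} (x^m - x^i)` -/
theorem prod_shift (x : ℚ) (m : ℕ) :
    (x - 1) * ∏ i ∈ range m, (x ^ (m + 1) - x ^ i) =
      (x ^ (m + 1) - 1) * ∏ i ∈ range m, (x ^ m - x ^ i) := by
  cases m with
  | zero => simp
  | succ k =>
    rw [Finset.prod_range_succ' (fun i => x ^ (k + 1 + 1) - x ^ i),
      Finset.prod_range_succ (fun i => x ^ (k + 1) - x ^ i)]
    have e : ∏ i ∈ range k, (x ^ (k + 1 + 1) - x ^ (i + 1))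
        = x ^ k * ∏ i ∈ range k, (x ^ (k + 1) - x ^ i) := by
      rw [show x ^ k = ∏ _i ∈ range k, x from by rw [Finset.prod_const, card_range],
        ← Finset.prod_mul_distrib]
      exact Finset.prod_congr rfl fun i _ => by ring
    rw [e]
    ring

end UF

/-- (U4) nonvanishing of `J_0` -/
theorem J0_ne_zero (C : Cj K) (n : ℕ) :
    (∏ i ∈ range (n - 1), (C.X ^ (n - 1) - C.X ^ i)) ≠ 0 := by
  rw [Finset.prod_ne_zero_iff]
  intro i hi h
  have := UF.X_pow_inj C (sub_eq_zero.1 h)
  rw [mem_range] at hi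
  omega

/-- (U2) -/
theorem T_identity (hn : 1 ≤ n) (g : Matrix (Fin n) (Fin n) K) (hg : InGU C.q g) :
    (∏ i ∈ range (n - 1), (C.X ^ (n - 1) - C.X ^ i)) *
      (open Classical in (if InGU C.q g ∧ IsRefl g then 1 else 0) +
        if g = 1 then qInt C.X n else 0) =
    ∏ i ∈ range (n - 1), (C.X ^ finrank K (LinearMap.ker (g.mulVecLin - 1)) - C.X ^ i) := by
  classical
  set d := finrank K (LinearMap.ker (g.mulVecLin - 1)) with hd
  have hmem : ∀ x, x ∈ LinearMap.ker (g.mulVecLin - 1) ↔ g *ᵥ x = x := by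
    intro x
    rw [LinearMap.mem_ker, LinearMap.sub_apply, Module.End.one_apply, sub_eq_zero,
      Matrix.mulVecLin_apply]
  have hdn : d ≤ n := by
    have := Submodule.finrank_le (LinearMap.ker (g.mulVecLin - 1))
    rwa [finrank_fintype_fun_eq_card, Fintype.card_fin] at this
  have h1iff : g = 1 ↔ d = n := by
    constructor
    · rintro rfl
      have : LinearMap.ker ((1 : Matrix (Fin n) (Fin n) K).mulVecLin - 1) = ⊤ := by
        rw [eq_top_iff]
        intro x _
        rw [hmem, Matrix.one_mulVec]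
      rw [hd, this, finrank_top, finrank_fintype_fun_eq_card, Fintype.card_fin]
    · intro h
      have htop : LinearMap.ker (g.mulVecLin - 1) = ⊤ := by
        apply Submodule.eq_top_of_finrank_eq
        rw [← hd, h, finrank_fintype_fun_eq_card, Fintype.card_fin]
      ext i j
      have h2 : g *ᵥ (Pi.single j 1) = Pi.single j 1 := by
        rw [← hmem, htop]
        trivial
      have h3 := congrFun h2 i
      rw [Matrix.mulVec_single_one] at h3
      simp only [Matrix.col_apply] at h3
      rw [h3, Matrix.one_apply, Pi.single_apply]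
  have h2iff : IsRefl g ↔ d + 1 = n := by
    constructor
    · rintro ⟨hne, S, hS, hfix⟩
      have hle : S ≤ LinearMap.ker (g.mulVecLin - 1) := fun x hx => (hmem x).2 (hfix x hx)
      have h3 := Submodule.finrank_mono hle
      have h4 : d ≠ n := fun h => hne (h1iff.2 h)
      rw [← hd] at h3
      omega
    · intro h
      refine ⟨fun h1 => ?_, LinearMap.ker (g.mulVecLin - 1), h, fun x hx => (hmem x).1 hx⟩
      have := h1iff.1 h1
      omega
  by_cases c1 : g = 1
  · have hdn' := h1iff.1 c1
    have hnr : ¬ (InGU C.q g ∧ IsRefl g) := fun h => h.2.1 c1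
    rw [if_neg hnr, if_pos c1, zero_add, hdn']
    obtain ⟨m, rfl⟩ : ∃ m, n = m + 1 := ⟨n - 1, by omega⟩
    rw [Nat.add_sub_cancel]
    have h3 := UF.prod_shift C.X m
    have h4 : qInt C.X (m + 1) * (C.X - 1) = C.X ^ (m + 1) - 1 := geom_sum_mul _ _
    have h5 : C.X - 1 ≠ 0 := by
      have := C.two_le_q
      unfold Cj.X
      have h6 : (2 : ℚ) ≤ C.q := by exact_mod_cast this
      intro h
      linarith
    apply mul_left_cancel₀ h5
    rw [h3, ← h4]
    ring
  · have c1' : d ≠ n := fun h => c1 (h1iff.2 h)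
    rw [if_neg c1, add_zero]
    by_cases c2 : IsRefl g
    · have := h2iff.1 c2
      rw [if_pos ⟨hg, c2⟩, mul_one]
      have : n - 1 = d := by omega
      rw [this]
    · have c2' : d + 1 ≠ n := fun h => c2 (h2iff.2 h)
      rw [if_neg (fun h => c2 h.2), mul_zero]
      symm
      apply Finset.prod_eq_zero (i := d)
      · rw [mem_range]
        omega
      · rw [sub_self]

/-- (U3) -/
theorem KR_graph_id (k : ℕ) (g : Matrix (Fin n) (Fin n) K) :
    KR C (LinearEquiv.refl K (Fin k → K)).toLinearMap.graph g =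
      (C.X ^ finrank K (LinearMap.ker (g.mulVecLin - 1))) ^ k := by
  have hmem : ∀ x, x ∈ LinearMap.ker (g.mulVecLin - 1) ↔ g *ᵥ x = x := by
    intro x
    rw [LinearMap.mem_ker, LinearMap.sub_apply, Module.End.one_apply, sub_eq_zero,
      Matrix.mulVecLin_apply]
  have hsol : ∀ b : Fin n → Fin k → K,
      b ∈ solL (LinearEquiv.refl K (Fin k → K)).toLinearMap.graph g ↔
        ∀ c : Fin k, g *ᵥ (fun i => b i c) = fun i => b i c := by
    intro b
    have : b ∈ solL (LinearEquiv.refl K (Fin k → K)).toLinearMap.graph g ↔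
        ∀ i, b i = ∑ j, g i j • b j := by
      show (∀ i, ((∑ j, g i j • b j), b i) ∈ (LinearEquiv.refl K (Fin k → K)).toLinearMap.graph) ↔ _
      simp only [LinearMap.mem_graph_iff]
      rfl
    rw [this]
    constructor
    · intro h c
      ext i
      have h1 := congrFun (h i) c
      rw [h1]
      simp only [Matrix.mulVec, dotProduct, Finset.sum_apply, Pi.smul_apply, smul_eq_mul]
    · intro h i
      ext c
      have h1 := congrFun (h c) i
      rw [← h1]
      simp only [Matrix.mulVec, dotProduct, Finset.sum_apply, Pi.smul_apply, smul_eq_mul]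
  have e : finrank K (solL (LinearEquiv.refl K (Fin k → K)).toLinearMap.graph g) =
      finrank K (LinearMap.ker (g.mulVecLin - 1)) * k := by
    have e1 : finrank K (Fin k → LinearMap.ker (g.mulVecLin - 1)) =
        finrank K (LinearMap.ker (g.mulVecLin - 1)) * k := by
      rw [Module.finrank_pi_fintype, Finset.sum_const, Finset.card_univ, Fintype.card_fin,
        smul_eq_mul, mul_comm]
    rw [← e1]
    refine LinearEquiv.finrank_eq
      { toFun := fun b c => ⟨fun i => b.1 i c, (hmem _).2 ((hsol b.1).1 b.2 c)⟩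
        invFun := fun y => ⟨fun i c => (y c).1 i, (hsol _).2 (fun c => (hmem _).1 (y c).2)⟩
        map_add' := fun x y => rfl
        map_smul' := fun c x => rfl
        left_inv := fun x => rfl
        right_inv := fun x => rfl }
  rw [KR, e, pow_mul]

end
end Pool.Agent.MP_359fef_co
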