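import Pool.Agent.Lib.MP_359fef_co_h40.Refl

/-!
Task A: the transfer identity.
-/

namespace Pool.Agent.MP_359fef_co

open Finset Matrix Module

universe u

variable {K : Type u} [Field K] [Fintype K] {C : Cj K}

namespace TaskA

/-- `K^n` as a Hermitian space -/
def stdH (C : Cj K) (n : ℕ) : Herm C (Fin n → K) where
  f := stdHerm C n
  add_right x y z := by simp [stdHerm, mul_add, Finset.sum_add_distrib]
  smul_right a x y := by
    simp only [stdHerm, Pi.smul_apply, smul_eq_mul, Finset.mul_sum]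
    exact Finset.sum_congr rfl fun i _ => by ring
  symm x y := by
    simp only [stdHerm, map_sum, map_mul, C.σ_σ]
    exact Finset.sum_congr rfl fun i _ => by ring
  nondeg x hx := by
    ext i
    have h := hx (Pi.single i 1)
    simp only [stdHerm, Pi.single_apply, mul_ite, mul_one, mul_zero, Finset.sum_ite_eq',
      Finset.mem_univ, if_true] at h
    exact C.σ.injective (by rw [h]; simp)

/-- `W^n` as a Hermitian space -/
def tenH {W : Type u} [AddCommGroup W] [Module K W] (H : Herm C W) (n : ℕ) :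
    Herm C (Fin n → W) where
  f x y := ∑ i, H.f (x i) (y i)
  add_right x y z := by simp [H.add_right, Finset.sum_add_distrib]
  smul_right a x y := by simp [H.smul_right, Finset.mul_sum]
  symm x y := by
    rw [map_sum]
    exact Finset.sum_congr rfl fun i _ => H.symm _ _
  nondeg x hx := by
    ext i
    apply H.nondeg
    intro y
    have h := hx (Pi.single i y)
    rw [Finset.sum_eq_single i] at h
    · simpa using h
    · intro j _ hj
      rw [Pi.single_eq_of_ne hj, H.zero_right]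
    · intro h
      exact absurd (Finset.mem_univ _) h

section abstr

variable {M U : Type u} [AddCommGroup M] [Module K M] [Finite M]
  [AddCommGroup U] [Module K U] [Fintype U]

/-- the solution space -/
def SS (C : Cj K) (G : M →ₗ[K] M) (T : U →ₗ[K] M) (Ts : M →ₗ[K] U) (ν : K) :
    Submodule K (M × U) where
  carrier := {p | p.1 - G p.1 = T p.2 ∧ Ts p.1 = - C.σ ν • p.2}
  add_mem' := by
    rintro a b ⟨h1, h2⟩ ⟨h3, h4⟩
    refine ⟨?_, ?_⟩
    · simp only [Prod.fst_add, Prod.snd_add, map_add, ← h1, ← h3]; abel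
    · simp only [Prod.fst_add, Prod.snd_add, map_add, h2, h4, smul_add]
  zero_mem' := by simp
  smul_mem' := by
    rintro r a ⟨h1, h2⟩
    refine ⟨?_, ?_⟩
    · simp only [Prod.smul_fst, Prod.smul_snd, map_smul, ← h1, smul_sub]
    · simp only [Prod.smul_fst, Prod.smul_snd, map_smul, h2, smul_smul]
      rw [mul_comm]

omit [Finite M] in
theorem mem_SS {G : M →ₗ[K] M} {T : U →ₗ[K] M} {Ts : M →ₗ[K] U} {ν : K} {p : M × U} :
    p ∈ SS C G T Ts ν ↔ p.1 - G p.1 = T p.2 ∧ Ts p.1 = - C.σ ν • p.2 := Iff.rfl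

/-- `1 - G` -/
def DG (G : M →ₗ[K] M) : M →ₗ[K] M := LinearMap.id - G

omit [Fintype K] [Finite M] in
theorem DG_apply (G : M →ₗ[K] M) (z : M) : DG G z = z - G z := rfl

theorem range_eq_perp (HM : Herm C M) (G : M →ₗ[K] M)
    (hG : ∀ x y, HM.f (G x) (G y) = HM.f x y) :
    LinearMap.range (DG G) = HM.perp (LinearMap.ker (DG G)) := by
  apply Submodule.eq_of_le_of_finrank_eq
  · rintro _ ⟨η, rfl⟩ z hz
    rw [LinearMap.mem_ker, DG_apply, sub_eq_zero] at hz
    rw [DG_apply, HM.sub_right]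
    conv_lhs => rw [show HM.f z (G η) = HM.f (G z) (G η) from by rw [← hz]]
    rw [hG, sub_self]
  · have h1 := LinearMap.finrank_range_add_finrank_ker (DG G)
    have h2 := HM.finrank_perp (LinearMap.ker (DG G))
    omega

variable (HM : Herm C M) (HU : Herm C U) (G : M →ₗ[K] M)
  (hG : ∀ x y, HM.f (G x) (G y) = HM.f x y)
  (T : U →ₗ[K] M) (Ts : M →ₗ[K] U) (hT : ∀ u z, HM.f (T u) z = HU.f u (Ts z))

include hG hT

omit [Fintype U] in
theorem comap_eq_perp : (LinearMap.range (DG G)).comap T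
    = HU.perp ((LinearMap.ker (DG G)).map Ts) := by
  rw [range_eq_perp HM G hG]
  ext u
  constructor
  · rintro hu _ ⟨z, hz, rfl⟩
    have := hu z hz
    rw [HU.symm u, ← hT, ← HM.symm]
    exact this
  · intro hu z hz
    have := hu (Ts z) ⟨z, hz, rfl⟩
    rw [HM.symm (T u), hT, ← HU.symm]
    exact this

theorem perp_comap : HU.perp ((LinearMap.range (DG G)).comap T)
    = (LinearMap.ker (DG G)).map Ts := by
  rw [comap_eq_perp HM HU G hG T Ts hT, HU.perp_perp]

/-- the map whose radical we need -/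
def radMap (C : Cj K) (T : U →ₗ[K] M) (Ts : M →ₗ[K] U) (E : M →ₗ[K] M) (ν : K) : U →ₗ[K] U :=
  C.σ ν • LinearMap.id + Ts ∘ₗ E ∘ₗ T

/-- dimension of the solution space -/
theorem finrank_SS (E : M →ₗ[K] M)
    (hE : ∀ z, E (z - G z) - G (E (z - G z)) = z - G z) (ν : K) :
    finrank K (SS C G T Ts ν) + finrank K U =
      finrank K (LinearMap.ker (DG G)) + (finrank K ((LinearMap.range (DG G)).comap T) +
        finrank K (Submodule.comap (radMap C T Ts E ν ∘ₗ
          ((LinearMap.range (DG G)).comap T).subtype)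
          (HU.perp ((LinearMap.range (DG G)).comap T)))) := by
  set R0 := (LinearMap.range (DG G)).comap T with hR0
  set N := LinearMap.ker (DG G) with hN
  set Rad := Submodule.comap (radMap C T Ts E ν ∘ₗ R0.subtype) (HU.perp R0) with hRad
  have hperp : HU.perp R0 = N.map Ts := perp_comap HM HU G hG T Ts hT
  -- projection
  let π : SS C G T Ts ν →ₗ[K] U := (LinearMap.snd K M U) ∘ₗ (SS C G T Ts ν).subtype
  have hrange : LinearMap.range π = Rad.map R0.subtype := by
    ext u
    constructor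
    · rintro ⟨⟨⟨η, u'⟩, h1, h2⟩, rfl⟩
      simp only at h1 h2
      have hu : u' ∈ R0 := ⟨η, by rw [DG_apply, h1]⟩
      refine ⟨⟨u', hu⟩, ?_, rfl⟩
      show radMap C T Ts E ν u' ∈ HU.perp R0
      rw [hperp]
      refine ⟨E (T u') - η, ?_, ?_⟩
      · rw [SetLike.mem_coe, hN, LinearMap.mem_ker, map_sub, DG_apply, DG_apply, h1]
        have := hE η
        rw [h1] at this
        rw [this, sub_self]
      · simp only [radMap, LinearMap.add_apply, LinearMap.smul_apply, LinearMap.id_apply,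
          LinearMap.comp_apply, map_sub, h2, neg_smul]
        abel
    · rintro ⟨⟨u', hu⟩, hr, rfl⟩
      have hr' : radMap C T Ts E ν u' ∈ HU.perp R0 := hr
      rw [hperp] at hr'
      obtain ⟨z, hz, hz2⟩ := hr'
      obtain ⟨η, hη⟩ := hu
      rw [DG_apply] at hη
      have h3 := hE η
      rw [hη] at h3
      have hz' : z - G z = 0 := by
        have := LinearMap.mem_ker.1 hz
        rwa [DG_apply] at this
      refine ⟨⟨(E (T u') - z, u'), ?_, ?_⟩, rfl⟩
      · show E (T u') - z - G (E (T u') - z) = T u'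
        rw [map_sub]
        have : E (T u') - z - (G (E (T u')) - G z) = (E (T u') - G (E (T u'))) - (z - G z) := by
          abel
        rw [this, h3, hz', sub_zero]
      · show Ts (E (T u') - z) = - C.σ ν • u'
        rw [map_sub, hz2]
        simp only [radMap, LinearMap.add_apply, LinearMap.smul_apply, LinearMap.id_apply,
          LinearMap.comp_apply, neg_smul]
        abel
  have hker : finrank K (LinearMap.ker π) = finrank K (LinearMap.ker (Ts.domRestrict N)) := by
    refine LinearEquiv.finrank_eq ?_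
    refine LinearEquiv.ofBijective
      ({ toFun := fun p => ⟨⟨p.1.1.1, ?_⟩, ?_⟩, map_add' := ?_, map_smul' := ?_ } :
        LinearMap.ker π →ₗ[K] LinearMap.ker (Ts.domRestrict N)) ⟨?_, ?_⟩
    · have h1 := p.1.2.1
      have h2 : p.1.1.2 = 0 := LinearMap.mem_ker.1 p.2
      rw [h2, map_zero] at h1
      rw [hN, LinearMap.mem_ker, DG_apply]
      exact h1
    · have h1 := p.1.2.2
      have h2 : p.1.1.2 = 0 := LinearMap.mem_ker.1 p.2
      rw [h2, smul_zero] at h1
      rw [LinearMap.mem_ker]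
      exact h1
    · intro x y
      rfl
    · intro c x
      rfl
    · intro x y hxy
      have h1 : x.1.1.1 = y.1.1.1 := congrArg (fun z => (z.1.1 : M)) hxy
      have h2 : x.1.1.2 = 0 := LinearMap.mem_ker.1 x.2
      have h3 : y.1.1.2 = 0 := LinearMap.mem_ker.1 y.2
      apply Subtype.ext
      apply Subtype.ext
      exact Prod.ext h1 (by rw [h2, h3])
    · rintro ⟨⟨z, hz⟩, hz2⟩
      have hz' : z - G z = 0 := by
        have := LinearMap.mem_ker.1 hz
        rwa [DG_apply] at this
      have hz3 : Ts z = 0 := LinearMap.mem_ker.1 hz2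
      refine ⟨⟨⟨(z, 0), ?_, ?_⟩, ?_⟩, rfl⟩
      · show z - G z = T 0
        rw [hz', map_zero]
      · show Ts z = - C.σ ν • (0 : U)
        rw [hz3, smul_zero]
      · rw [LinearMap.mem_ker]
        rfl
  have h1 := LinearMap.finrank_range_add_finrank_ker π
  have h2 := LinearMap.finrank_range_add_finrank_ker (Ts.domRestrict N)
  have h3 : LinearMap.range (Ts.domRestrict N) = N.map Ts := LinearMap.range_domRestrict N Ts
  have h4 : finrank K (Rad.map R0.subtype) = finrank K Rad :=
    Submodule.finrank_map_subtype_eq R0 Rad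
  have h5 := HU.finrank_perp R0
  rw [hperp] at h5
  rw [h3] at h2
  rw [hrange, h4, hker] at h1
  omega

open Classical in
theorem key_sum (ψ : AddChar K ℂ) (hψ : ∃ s : K, C.σ s = -s ∧ ψ s ≠ 1)
    (ρ : K) (hρ : ∀ u u', HM.f (T u) (T u') = ρ * HU.f u u')
    (E : M →ₗ[K] M) (hE : ∀ z, E (z - G z) - G (E (z - G z)) = z - G z)
    (ν : K) (hν : ν + C.σ ν = -ρ) :
    (-(C.q : ℂ)) ^ (finrank K (SS C G T Ts ν) + finrank K U) =
      (-(C.q : ℂ)) ^ (finrank K (LinearMap.ker (DG G))) *
        ∑ u : U, (if T u ∈ LinearMap.range (DG G) then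
          ψ (HM.f (T u) (E (T u))) else 0) * ψ (C.σ ν * HU.f u u) := by
  set R0 := (LinearMap.range (DG G)).comap T with hR0
  let _ : Fintype R0 := Fintype.ofFinite _
  have hg := gauss C ψ hψ R0 (fun u u' => C.σ ν * HU.f u u' + HM.f (T u) (E (T u')))
    (fun x y z => by
      simp only [Submodule.coe_add, map_add, HU.add_right, HM.add_right]; ring)
    (fun a x y => by
      simp only [Submodule.coe_smul, map_smul, HU.smul_right, HM.smul_right]; ring)
    (fun x y => by
      obtain ⟨η, hη⟩ := x.2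
      obtain ⟨η', hη'⟩ := y.2
      have e1 := hE η
      have e2 := hE η'
      rw [DG_apply] at hη hη'
      rw [hη] at e1
      rw [hη'] at e2
      set p := T x with hp
      set p' := T y with hp'
      have e3 : HM.f p' (E p) + HM.f (E p') p = HM.f p' p := by
        have f1 : HM.f p' (E p) = HM.f (E p') (E p) - HM.f (G (E p')) (E p) := by
          conv_lhs => rw [← e2]
          rw [HM.sub_left]
        have f2 : HM.f (E p') p = HM.f (E p') (E p) - HM.f (E p') (G (E p)) := by
          conv_lhs => rw [← e1]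
          rw [HM.sub_right]
        have f3 : HM.f p' p = (HM.f (E p') (E p) - HM.f (E p') (G (E p))) -
            (HM.f (G (E p')) (E p) - HM.f (G (E p')) (G (E p))) := by
          conv_lhs => rw [← e1, ← e2]
          rw [HM.sub_left, HM.sub_right, HM.sub_right]
        rw [f1, f2, f3, hG]
        ring
      have e4 : HM.f p' p = ρ * HU.f y x := hρ _ _
      simp only [map_add, map_mul, C.σ_σ, ← HU.symm, ← HM.symm]
      linear_combination e3 + e4 + (HU.f (y : U) (x : U)) * hν)
    (Submodule.comap (radMap C T Ts E ν ∘ₗ R0.subtype) (HU.perp R0))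
    (fun x => by
      constructor
      · intro hx y
        have := hx y.1 y.2
        simp only [radMap, LinearMap.comp_apply, LinearMap.add_apply, LinearMap.smul_apply,
          LinearMap.id_apply, Submodule.subtype_apply, HU.add_right, HU.smul_right] at this
        rw [hT]
        exact this
      · intro hx y hy
        have := hx ⟨y, hy⟩
        simp only [radMap, LinearMap.comp_apply, LinearMap.add_apply, LinearMap.smul_apply,
          LinearMap.id_apply, Submodule.subtype_apply, HU.add_right, HU.smul_right]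
        rw [hT] at this
        exact this)
  rw [finrank_SS HM HU G hG T Ts hT E hE ν, pow_add, ← hg]
  congr 1
  have e : ∑ u : U, (if T u ∈ LinearMap.range (DG G) then
          ψ (HM.f (T u) (E (T u))) else 0) * ψ (C.σ ν * HU.f u u)
      = ∑ u : U, if u ∈ R0 then ψ (C.σ ν * HU.f u u + HM.f (T u) (E (T u))) else 0 := by
    refine Finset.sum_congr rfl fun u _ => ?_
    by_cases hu : T u ∈ LinearMap.range (DG G)
    · have hu' : u ∈ R0 := hu
      rw [if_pos hu, if_pos hu', AddChar.map_add_eq_mul, mul_comm]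
    · have hu' : u ∉ R0 := hu
      rw [if_neg hu, if_neg hu', zero_mul]
  rw [e, ← Finset.sum_filter]
  exact (Finset.sum_subtype (univ.filter (fun u => u ∈ R0)) (by simp)
    (fun u => ψ (C.σ ν * HU.f u u + HM.f (T u) (E (T u))))).symm

end abstr


/-! ### the scalar identity -/

open Classical in
/-- the sum over a trace fibre -/
theorem sum_tr (C : Cj K) (ψ : AddChar K ℂ) (hψ : ∃ s : K, C.σ s = -s ∧ ψ s ≠ 1)
    (s t : K) (hs : C.σ s = s) (ht : C.σ t = t) :
    ∑ μ : K, (if μ + C.σ μ = t then ψ (C.σ μ * s) else 0) = if s = 0 then (C.q : ℂ) else 0 := by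
  by_cases h0 : s = 0
  · subst h0
    rw [if_pos rfl]
    simp only [mul_zero, AddChar.map_zero_eq_one]
    rw [← Finset.sum_filter, Finset.sum_const, nsmul_eq_mul, mul_one]
    have h := C.card_tr t ht
    rw [Nat.card_eq_fintype_card, Fintype.card_subtype] at h
    rw [h]
  · rw [if_neg h0]
    obtain ⟨κ0, hκ, hne⟩ := hψ
    set κ := - κ0 * s⁻¹ with hκd
    have hsκ : C.σ κ = -κ := by
      rw [hκd, map_mul, map_neg, hκ, map_inv₀, hs]
      ring
    have hκs : C.σ κ * s = κ0 := by
      rw [hsκ, hκd]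
      field_simp
    have e : ∑ μ : K, (if μ + C.σ μ = t then ψ (C.σ μ * s) else 0)
        = ∑ μ : K, (if (μ + κ) + C.σ (μ + κ) = t then ψ (C.σ (μ + κ) * s) else 0) :=
      (Equiv.sum_comp (Equiv.addRight κ) (fun μ => if μ + C.σ μ = t then ψ (C.σ μ * s) else 0)).symm
    have e2 : ∑ μ : K, (if (μ + κ) + C.σ (μ + κ) = t then ψ (C.σ (μ + κ) * s) else 0)
        = ψ κ0 * ∑ μ : K, (if μ + C.σ μ = t then ψ (C.σ μ * s) else 0) := by
      rw [Finset.mul_sum]
      refine Finset.sum_congr rfl fun μ _ => ?_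
      have h1 : (μ + κ) + C.σ (μ + κ) = μ + C.σ μ := by
        rw [map_add, hsκ]; ring
      rw [h1, map_add, add_mul, hκs, AddChar.map_add_eq_mul]
      split_ifs
      · ring
      · ring
    rw [e2] at e
    have h3 : (1 - ψ κ0) * ∑ μ : K, (if μ + C.σ μ = t then ψ (C.σ μ * s) else 0) = 0 := by
      linear_combination e
    rcases mul_eq_zero.1 h3 with h | h
    · exact absurd (sub_eq_zero.1 h).symm hne
    · exact h

open Classical in
/-- the symmetric sum -/
theorem sum_sym (C : Cj K) (ψ : AddChar K ℂ) (hψ : ∃ s : K, C.σ s = -s ∧ ψ s ≠ 1) (a : K)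
    (ha : a * C.σ a = 1) (s r : K) (hs : C.σ s = s) (hr : C.σ r = r) :
    ∑ μ : K, (if μ + C.σ μ = -s ∧ C.σ μ = -(a * μ) then ψ (C.σ μ * r) else 0) =
      ∑ μ : K, (if μ + C.σ μ = -r ∧ C.σ μ = -(a * μ) then ψ (C.σ μ * s) else 0) := by
  by_cases h1 : a = 1
  · subst h1
    have key : ∀ s r : K, C.σ s = s → C.σ r = r →
        ∑ μ : K, (if μ + C.σ μ = -s ∧ C.σ μ = -(1 * μ) then ψ (C.σ μ * r) else 0) =
          if s = 0 ∧ r = 0 then (C.q : ℂ) else 0 := by
      intro s r hs hr
      by_cases h0 : s = 0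
      · subst h0
        have := sum_tr C ψ hψ r 0 hr (map_zero _)
        simp only [true_and]
        rw [← this]
        refine Finset.sum_congr rfl fun μ _ => ?_
        have : (μ + C.σ μ = -0 ∧ C.σ μ = -(1 * μ)) ↔ μ + C.σ μ = 0 := by
          rw [neg_zero, one_mul]
          constructor
          · exact fun h => h.1
          · exact fun h => ⟨h, by linear_combination h⟩
        simp only [this]
      · rw [if_neg (fun h => h0 h.1)]
        refine Finset.sum_eq_zero fun μ _ => ?_
        rw [if_neg]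
        rintro ⟨h2, h3⟩
        apply h0
        linear_combination h2 - h3
    rw [key s r hs hr, key r s hr hs]
    simp only [and_comm]
  · have ha1 : a - 1 ≠ 0 := sub_ne_zero.2 h1
    have ha0 : a ≠ 0 := by
      rintro rfl
      simp at ha
    have hsa : C.σ a = a⁻¹ := by
      field_simp
      linear_combination ha
    have key : ∀ s r : K, C.σ s = s → C.σ r = r →
        ∑ μ : K, (if μ + C.σ μ = -s ∧ C.σ μ = -(a * μ) then ψ (C.σ μ * r) else 0) =
          ψ (-(a * s * r / (a - 1))) := by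
      intro s r hs hr
      have hσ : C.σ (s / (a - 1)) = -(a * (s / (a - 1))) := by
        rw [map_div₀, map_sub, map_one, hs, hsa]
        have : a⁻¹ - 1 = -(a - 1) / a := by field_simp; ring
        rw [this]
        field_simp
      rw [Finset.sum_eq_single (s / (a - 1))]
      · rw [if_pos]
        · congr 1
          rw [hσ]
          ring
        · refine ⟨?_, hσ⟩
          rw [hσ]
          field_simp
          ring
      · intro μ _ hμ
        rw [if_neg]
        rintro ⟨h2, h3⟩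
        apply hμ
        rw [eq_div_iff ha1]
        linear_combination -h2 + h3
      · intro h
        exact absurd (Finset.mem_univ _) h
    rw [key s r hs hr, key r s hr hs]
    congr 1
    ring

open Classical in
/-- the scalar identity -/
theorem scalar (C : Cj K) (ψ : AddChar K ℂ) (hψ : ∃ s : K, C.σ s = -s ∧ ψ s ≠ 1) (a : K)
    (ha : a * C.σ a = 1) (s r : K) (hs : C.σ s = s) (hr : C.σ r = r) :
    ∑ μ : K, (if μ ≠ 0 ∧ μ + C.σ μ = -s ∧ C.σ μ = -(a * μ) then ψ (C.σ μ * r) else 0) =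
      ∑ μ : K, (if μ + C.σ μ = -r then (if C.σ μ = -(a * μ) then 1 else 0) - (C.q : ℂ)⁻¹ else 0)
        * ψ (C.σ μ * s) := by
  have hq : (C.q : ℂ) ≠ 0 := by
    have := C.two_le_q
    exact_mod_cast (by omega : C.q ≠ 0)
  have e1 : ∑ μ : K, (if μ ≠ 0 ∧ μ + C.σ μ = -s ∧ C.σ μ = -(a * μ) then ψ (C.σ μ * r) else 0)
      = ∑ μ : K, (if μ + C.σ μ = -s ∧ C.σ μ = -(a * μ) then ψ (C.σ μ * r) else 0)
        - if s = 0 then 1 else 0 := by
    have e2 : ∀ μ : K, (if μ ≠ 0 ∧ μ + C.σ μ = -s ∧ C.σ μ = -(a * μ) then ψ (C.σ μ * r) else 0)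
        = (if μ + C.σ μ = -s ∧ C.σ μ = -(a * μ) then ψ (C.σ μ * r) else 0)
          - if μ = 0 then (if s = 0 then 1 else 0) else 0 := by
      intro μ
      by_cases h : μ = 0
      · subst h
        by_cases h0 : s = 0
        · subst h0; simp
        · have : ¬ (0 : K) = -s := fun h => h0 (by rw [eq_comm, neg_eq_zero] at h; exact h)
          simp [h0]
      · simp [h]
    rw [Finset.sum_congr rfl fun μ _ => e2 μ, Finset.sum_sub_distrib, Finset.sum_ite_eq']
    simp
  have e3 : ∀ μ : K, (if μ + C.σ μ = -r then (if C.σ μ = -(a * μ) then 1 else 0) - (C.q : ℂ)⁻¹ else 0)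
        * ψ (C.σ μ * s) = (if μ + C.σ μ = -r ∧ C.σ μ = -(a * μ) then ψ (C.σ μ * s) else 0)
          - (C.q : ℂ)⁻¹ * (if μ + C.σ μ = -r then ψ (C.σ μ * s) else 0) := by
    intro μ
    by_cases h1 : μ + C.σ μ = -r
    · by_cases h2 : C.σ μ = -(a * μ)
      · rw [if_pos h1, if_pos h2, if_pos ⟨h1, h2⟩, if_pos h1]; ring
      · rw [if_pos h1, if_neg h2, if_neg (fun h => h2 h.2), if_pos h1]; ring
    · rw [if_neg h1, if_neg (fun h => h1 h.1), if_neg h1]; ring
  rw [e1, Finset.sum_congr rfl fun μ _ => e3 μ, Finset.sum_sub_distrib, ← Finset.mul_sum,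
    sum_tr C ψ hψ s (-r) hs (by rw [map_neg, hr]), sum_sym C ψ hψ a ha s r hs hr]
  congr 1
  split_ifs
  · field_simp
  · simp


section concrete

variable {n : ℕ} {W : Type u} [AddCommGroup W] [Module K W] [Fintype W]

/-- `G = g ⊗ h` -/
def GG (g : Matrix (Fin n) (Fin n) K) (h : W ≃ₗ[K] W) : (Fin n → W) →ₗ[K] (Fin n → W) where
  toFun z := fun i => ∑ j, g i j • h (z j)
  map_add' x y := by
    ext i
    simp [smul_add, Finset.sum_add_distrib]
  map_smul' c x := by
    ext i
    simp only [Pi.smul_apply, map_smul, RingHom.id_apply, Finset.smul_sum, smul_smul, mul_comm]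

omit [Fintype K] in
theorem GG_apply (g : Matrix (Fin n) (Fin n) K) (h : W ≃ₗ[K] W) (z : Fin n → W) (i : Fin n) :
    GG g h z i = ∑ j, g i j • h (z j) := rfl

theorem Herm.sum_right {W : Type u} [AddCommGroup W] [Module K W] (H : Herm C W)
    {ι : Type*} (s : Finset ι) (x : W) (f : ι → W) :
    H.f x (∑ i ∈ s, f i) = ∑ i ∈ s, H.f x (f i) := by
  classical
  induction s using Finset.induction_on with
  | empty => simp [H.zero_right]
  | insert a s ha ih => rw [Finset.sum_insert ha, Finset.sum_insert ha, H.add_right, ih]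

theorem Herm.sum_left {W : Type u} [AddCommGroup W] [Module K W] (H : Herm C W)
    {ι : Type*} (s : Finset ι) (f : ι → W) (x : W) :
    H.f (∑ i ∈ s, f i) x = ∑ i ∈ s, H.f (f i) x := by
  classical
  induction s using Finset.induction_on with
  | empty => simp [H.zero_left]
  | insert a s ha ih => rw [Finset.sum_insert ha, Finset.sum_insert ha, H.add_left, ih]

theorem GG_isom (H : Herm C W) {g : Matrix (Fin n) (Fin n) K} (hg : InGU C.q g)
    {h : W ≃ₗ[K] W} (hh : ∀ x y, H.f (h x) (h y) = H.f x y) (x y : Fin n → W) :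
    (tenH H n).f (GG g h x) (GG g h y) = (tenH H n).f x y := by
  rw [TaskR.inGU_iff] at hg
  have hg' : gᵀ.map C.σ * g = 1 := mul_eq_one_comm.1 hg
  have hg2 : ∀ j k, ∑ i, C.σ (g i j) * g i k = if j = k then 1 else 0 := by
    intro j k
    have := congrFun (congrFun hg' j) k
    simp only [Matrix.mul_apply, Matrix.map_apply, Matrix.transpose_apply, Matrix.one_apply] at this
    exact this
  show ∑ i, H.f (∑ j, g i j • h (x j)) (∑ k, g i k • h (y k)) = ∑ i, H.f (x i) (y i)
  have e : ∀ i, H.f (∑ j, g i j • h (x j)) (∑ k, g i k • h (y k))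
      = ∑ j, ∑ k, (C.σ (g i j) * g i k) * H.f (x j) (y k) := by
    intro i
    rw [Herm.sum_left]
    refine Finset.sum_congr rfl fun j _ => ?_
    rw [Herm.sum_right]
    refine Finset.sum_congr rfl fun k _ => ?_
    rw [H.smul_left, H.smul_right, hh]
    ring
  rw [Finset.sum_congr rfl fun i _ => e i, Finset.sum_comm]
  refine Finset.sum_congr rfl fun j _ => ?_
  rw [Finset.sum_comm]
  have e2 : ∀ k, ∑ i, (C.σ (g i j) * g i k) * H.f (x j) (y k)
      = if j = k then H.f (x j) (y k) else 0 := by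
    intro k
    rw [← Finset.sum_mul, hg2]
    split_ifs <;> simp
  rw [Finset.sum_congr rfl fun k _ => e2 k, Finset.sum_ite_eq]
  simp

/-- `v ↦ v ⊗ w` -/
def T1 (n : ℕ) (w : W) : (Fin n → K) →ₗ[K] (Fin n → W) where
  toFun v := fun i => v i • w
  map_add' x y := by
    ext i
    simp [add_smul]
  map_smul' c x := by
    ext i
    simp [smul_smul]

/-- `w ↦ v ⊗ w` -/
def T2 (v : Fin n → K) : W →ₗ[K] (Fin n → W) where
  toFun w := fun i => v i • w
  map_add' x y := by
    ext i
    simp
  map_smul' c x := by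
    ext i
    simp only [Pi.smul_apply, smul_smul, RingHom.id_apply, mul_comm]

/-- adjoint of `T1` -/
def Ts1 (H : Herm C W) (n : ℕ) (w : W) : (Fin n → W) →ₗ[K] (Fin n → K) where
  toFun z := fun i => H.f w (z i)
  map_add' x y := by
    ext i
    simp [H.add_right]
  map_smul' c x := by
    ext i
    simp [H.smul_right]

/-- adjoint of `T2` -/
def Ts2 (C : Cj K) (v : Fin n → K) : (Fin n → W) →ₗ[K] W where
  toFun z := ∑ i, C.σ (v i) • z i
  map_add' x y := by
    simp [Finset.sum_add_distrib]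
  map_smul' c x := by
    simp only [Pi.smul_apply, RingHom.id_apply, Finset.smul_sum, smul_smul, mul_comm]

theorem T1_adj (H : Herm C W) (w : W) (v : Fin n → K) (z : Fin n → W) :
    (tenH H n).f (T1 n w v) z = (stdH C n).f v (Ts1 H n w z) := by
  show ∑ i, H.f (v i • w) (z i) = ∑ i, C.σ (v i) * H.f w (z i)
  exact Finset.sum_congr rfl fun i _ => by rw [H.smul_left]

theorem T2_adj (H : Herm C W) (v : Fin n → K) (w : W) (z : Fin n → W) :
    (tenH H n).f (T2 v w) z = H.f w (Ts2 C v z) := by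
  show ∑ i, H.f (v i • w) (z i) = H.f w (∑ i, C.σ (v i) • z i)
  rw [Herm.sum_right]
  exact Finset.sum_congr rfl fun i _ => by rw [H.smul_left, H.smul_right]

theorem T1_rho (H : Herm C W) (w : W) (v v' : Fin n → K) :
    (tenH H n).f (T1 n w v) (T1 n w v') = H.f w w * (stdH C n).f v v' := by
  show ∑ i, H.f (v i • w) (v' i • w) = H.f w w * ∑ i, C.σ (v i) * v' i
  rw [Finset.mul_sum]
  refine Finset.sum_congr rfl fun i _ => ?_
  rw [H.smul_left, H.smul_right]
  ring

theorem T2_rho (H : Herm C W) (v : Fin n → K) (w w' : W) :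
    (tenH H n).f (T2 v w) (T2 v w') = stdHerm C n v v * H.f w w' := by
  show ∑ i, H.f (v i • w) (v i • w') = (∑ i, C.σ (v i) * v i) * H.f w w'
  rw [Finset.sum_mul]
  refine Finset.sum_congr rfl fun i _ => ?_
  rw [H.smul_left, H.smul_right]
  ring

omit [Fintype K] in
/-- a linear section of `1 - G` -/
theorem exists_E {M : Type u} [AddCommGroup M] [Module K M] (G : M →ₗ[K] M) :
    ∃ E : M →ₗ[K] M, ∀ z, E (z - G z) - G (E (z - G z)) = z - G z := by
  obtain ⟨f, hf⟩ := LinearMap.exists_rightInverse_of_surjective (DG G).rangeRestrict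
    (LinearMap.range_rangeRestrict (DG G))
  obtain ⟨E, hE⟩ := LinearMap.exists_extend f
  refine ⟨E, fun z => ?_⟩
  have hm : DG G z ∈ LinearMap.range (DG G) := ⟨z, rfl⟩
  have h1 : E (DG G z) = f ⟨DG G z, hm⟩ := by
    rw [← hE]; rfl
  have h2 : DG G (f ⟨DG G z, hm⟩) = DG G z := by
    have := congrArg (fun F => (F ⟨DG G z, hm⟩ : LinearMap.range (DG G)).1) hf
    simpa using this
  have h3 : DG G (E (DG G z)) = DG G z := by rw [h1, h2]
  exact h3

theorem Ssp_eq (H : Herm C W) (g : Matrix (Fin n) (Fin n) K) (h : W ≃ₗ[K] W) (w : W) (μ : K) :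
    Ssp H h g w μ = SS C (GG g h) (T1 n w) (Ts1 H n w) μ := by
  ext p
  rw [mem_SS]
  constructor
  · rintro ⟨h1, h2⟩
    exact ⟨funext h1, funext h2⟩
  · rintro ⟨h1, h2⟩
    exact ⟨fun i => congrFun h1 i, fun i => congrFun h2 i⟩

/-- the solution space on the other side -/
noncomputable def d2 (C : Cj K) (g : Matrix (Fin n) (Fin n) K) (h : W ≃ₗ[K] W) (v : Fin n → K)
    (ν : K) : ℕ :=
  finrank K (SS C (GG g h) (T2 v) (Ts2 C v) ν)

omit [Fintype K] in
theorem solL_graph (g : Matrix (Fin n) (Fin n) K) (h : W ≃ₗ[K] W) (b : Fin n → W) :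
    b ∈ solL h.toLinearMap.graph g ↔ b = GG g h b := by
  show (∀ i, ((∑ j, g i j • b j), b i) ∈ h.toLinearMap.graph) ↔ _
  simp only [LinearMap.mem_graph_iff]
  constructor
  · intro hb
    ext i
    rw [hb i, GG_apply]
    simp only [LinearEquiv.coe_coe, map_sum, map_smul]
  · intro hb i
    have := congrFun hb i
    rw [this, GG_apply]
    simp only [LinearEquiv.coe_coe, map_sum, map_smul]

omit [Fintype K] in
theorem finrank_ker_GG (g : Matrix (Fin n) (Fin n) K) (h : W ≃ₗ[K] W) :
    finrank K (LinearMap.ker (DG (GG g h))) = finrank K (solL h.toLinearMap.graph g) := by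
  have : LinearMap.ker (DG (GG g h)) = solL h.toLinearMap.graph g := by
    ext b
    rw [LinearMap.mem_ker, DG_apply, sub_eq_zero, solL_graph]
  rw [this]

omit [Fintype K] in
theorem GG_mul (g t : Matrix (Fin n) (Fin n) K) (h : W ≃ₗ[K] W) (b : Fin n → W) :
    GG (g * t) h b = GG g h (fun i => ∑ j, t i j • b j) := by
  ext i
  rw [GG_apply, GG_apply]
  simp only [Matrix.mul_apply, Finset.sum_smul, map_sum, map_smul, Finset.smul_sum,
    smul_smul]
  exact Finset.sum_comm

theorem tM_act (v : Fin n → K) (ν : K) (b : Fin n → W) :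
    (fun i => ∑ j, tM C v ν i j • b j) = b + T2 v (ν⁻¹ • Ts2 C v b) := by
  ext i
  rw [TaskR.tM_eq]
  simp only [Matrix.add_apply, vecMulVec_apply, add_smul, Finset.sum_add_distrib, Pi.add_apply,
    T2, Ts2, LinearMap.coe_mk, AddHom.coe_mk, Finset.smul_sum, smul_smul]
  congr 1
  · simp [Matrix.one_apply]

theorem d2_eq (g : Matrix (Fin n) (Fin n) K) (h : W ≃ₗ[K] W) (v : Fin n → K)
    (ν : K) (hν : ν ≠ 0) (hv : ν + C.σ ν = - stdHerm C n v v) :
    d2 C g h v ν = finrank K (solL h.toLinearMap.graph (g * tM C v ν)) := by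
  have hTT : ∀ w : W, Ts2 C v (T2 v w) = stdHerm C n v v • w := by
    intro w
    simp only [T2, Ts2, LinearMap.coe_mk, AddHom.coe_mk, smul_smul, stdHerm, Finset.sum_smul]
  refine LinearEquiv.finrank_eq ?_
  refine LinearEquiv.ofBijective
    ({ toFun := fun p => ⟨p.1.1 - T2 v p.1.2, ?_⟩, map_add' := ?_, map_smul' := ?_ } :
      SS C (GG g h) (T2 v) (Ts2 C v) ν →ₗ[K] solL h.toLinearMap.graph (g * tM C v ν)) ⟨?_, ?_⟩
  · obtain ⟨⟨η, w⟩, h1, h2⟩ := p
    simp only at h1 h2 ⊢
    rw [solL_graph, GG_mul, tM_act]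
    have e1 : Ts2 C v (η - T2 v w) = ν • w := by
      rw [map_sub, h2, hTT, ← sub_smul]
      congr 1
      linear_combination -hv
    rw [e1, smul_smul, inv_mul_cancel₀ hν, one_smul, sub_add_cancel, ← h1]
    abel
  · intro x y
    apply Subtype.ext
    simp only [Submodule.coe_add, Prod.fst_add, Prod.snd_add, map_add]
    abel
  · intro c x
    apply Subtype.ext
    simp only [Submodule.coe_smul, Prod.smul_fst, Prod.smul_snd, map_smul, RingHom.id_apply,
      smul_sub]
  · rw [← LinearMap.ker_eq_bot, LinearMap.ker_eq_bot']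
    rintro ⟨⟨η, w⟩, h1, h2⟩ h0
    simp only at h1 h2
    have h3 : η - T2 v w = 0 := congrArg Subtype.val h0
    have h4 : η = T2 v w := sub_eq_zero.1 h3
    rw [h4, hTT] at h2
    have h5 : ν • w = 0 := by
      have : ν • w = - (stdHerm C n v v • w - (- C.σ ν • w)) := by
        rw [← sub_smul, ← neg_smul]
        congr 1
        linear_combination hv
      rw [this, h2, sub_self, neg_zero]
    have h6 : w = 0 := (smul_eq_zero.1 h5).resolve_left hν
    subst h6
    rw [map_zero] at h4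
    subst h4
    rfl
  · rintro ⟨b, hb⟩
    rw [solL_graph, GG_mul, tM_act] at hb
    refine ⟨⟨(b + T2 v (ν⁻¹ • Ts2 C v b), ν⁻¹ • Ts2 C v b), ?_, ?_⟩, ?_⟩
    · show b + T2 v (ν⁻¹ • Ts2 C v b) - GG g h (b + T2 v (ν⁻¹ • Ts2 C v b)) = _
      rw [← hb]
      abel
    · show Ts2 C v (b + T2 v (ν⁻¹ • Ts2 C v b)) = - C.σ ν • ν⁻¹ • Ts2 C v b
      rw [map_add, hTT, smul_smul, smul_smul]
      have : Ts2 C v b = (ν * ν⁻¹) • Ts2 C v b := by
        rw [mul_inv_cancel₀ hν, one_smul]
      conv_lhs => rw [this]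
      rw [smul_smul, ← add_smul]
      congr 1
      field_simp
      linear_combination hv
    · apply Subtype.ext
      simp


omit [Fintype W] in
theorem herm_self (H : Herm C W) (w : W) : C.σ (H.f w w) = H.f w w := (H.symm w w).symm

open Classical in
theorem main_C (ψ : AddChar K ℂ) (hψ : ∃ s : K, C.σ s = -s ∧ ψ s ≠ 1) (a : K)
    (ha : a * C.σ a = 1) (H : Herm C W) {g : Matrix (Fin n) (Fin n) K} (hg : InGU C.q g)
    {h : W ≃ₗ[K] W} (hh : ∀ x y, H.f (h x) (h y) = H.f x y) :
    (-(C.q : ℂ)) ^ finrank K W * ∑ v : Fin n → K, ∑ ν : K,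
      (if ν ≠ 0 ∧ ν + C.σ ν = - stdHerm C n v v ∧ C.σ ν = -(a * ν) then
        (-(C.q : ℂ)) ^ d2 C g h v ν else 0) =
    (-(C.q : ℂ)) ^ n * ∑ w : W, ∑ μ : K,
      (if μ + C.σ μ = - H.f w w then (if C.σ μ = -(a * μ) then 1 else 0) - (C.q : ℂ)⁻¹ else 0)
        * (-(C.q : ℂ)) ^ finrank K (Ssp H h g w μ) := by
  obtain ⟨E, hE⟩ := exists_E (GG g h)
  have hG := GG_isom H hg hh
  set N := finrank K (LinearMap.ker (DG (GG g h))) with hN
  set P : (Fin n → K) → W → ℂ := fun v w =>
    if T2 v w ∈ LinearMap.range (DG (GG g h)) then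
      ψ ((tenH H n).f (T2 v w) (E (T2 v w))) else 0 with hP
  have A1 : ∀ (w : W) (μ : K), μ + C.σ μ = - H.f w w →
      (-(C.q : ℂ)) ^ n * (-(C.q : ℂ)) ^ finrank K (Ssp H h g w μ) =
        (-(C.q : ℂ)) ^ N * ∑ v : Fin n → K, P v w * ψ (C.σ μ * stdHerm C n v v) := by
    intro w μ hμ
    have := key_sum (tenH H n) (stdH C n) (GG g h) hG (T1 n w) (Ts1 H n w) (T1_adj H w) ψ hψ
      (H.f w w) (T1_rho H w) E hE μ hμ
    rw [finrank_fintype_fun_eq_card, Fintype.card_fin, pow_add, ← Ssp_eq, mul_comm] at this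
    exact this
  have A2 : ∀ (v : Fin n → K) (ν : K), ν + C.σ ν = - stdHerm C n v v →
      (-(C.q : ℂ)) ^ finrank K W * (-(C.q : ℂ)) ^ d2 C g h v ν =
        (-(C.q : ℂ)) ^ N * ∑ w : W, P v w * ψ (C.σ ν * H.f w w) := by
    intro v ν hν
    have := key_sum (tenH H n) H (GG g h) hG (T2 v) (Ts2 C v) (T2_adj H v) ψ hψ
      (stdHerm C n v v) (T2_rho H v) E hE ν hν
    rw [pow_add, mul_comm] at this
    exact this
  have hL : (-(C.q : ℂ)) ^ finrank K W * ∑ v : Fin n → K, ∑ ν : K,
      (if ν ≠ 0 ∧ ν + C.σ ν = - stdHerm C n v v ∧ C.σ ν = -(a * ν) then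
        (-(C.q : ℂ)) ^ d2 C g h v ν else 0) =
      (-(C.q : ℂ)) ^ N * ∑ v : Fin n → K, ∑ w : W, P v w * ∑ ν : K,
        (if ν ≠ 0 ∧ ν + C.σ ν = - stdHerm C n v v ∧ C.σ ν = -(a * ν) then
          ψ (C.σ ν * H.f w w) else 0) := by
    rw [Finset.mul_sum, Finset.mul_sum]
    refine Finset.sum_congr rfl fun v _ => ?_
    rw [Finset.mul_sum]
    have e : ∀ ν : K, (-(C.q : ℂ)) ^ finrank K W *
        (if ν ≠ 0 ∧ ν + C.σ ν = - stdHerm C n v v ∧ C.σ ν = -(a * ν) then
          (-(C.q : ℂ)) ^ d2 C g h v ν else 0) = (-(C.q : ℂ)) ^ N * ∑ w : W, P v w *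
        (if ν ≠ 0 ∧ ν + C.σ ν = - stdHerm C n v v ∧ C.σ ν = -(a * ν) then
          ψ (C.σ ν * H.f w w) else 0) := by
      intro ν
      by_cases hc : ν ≠ 0 ∧ ν + C.σ ν = - stdHerm C n v v ∧ C.σ ν = -(a * ν)
      · simp only [if_pos hc]
        exact A2 v ν hc.2.1
      · simp only [if_neg hc, mul_zero, Finset.sum_const_zero]
    rw [Finset.sum_congr rfl fun ν _ => e ν, ← Finset.mul_sum, Finset.sum_comm]
    congr 1
    refine Finset.sum_congr rfl fun w _ => ?_
    rw [Finset.mul_sum]
  have hR : (-(C.q : ℂ)) ^ n * ∑ w : W, ∑ μ : K,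
      (if μ + C.σ μ = - H.f w w then (if C.σ μ = -(a * μ) then 1 else 0) - (C.q : ℂ)⁻¹ else 0)
        * (-(C.q : ℂ)) ^ finrank K (Ssp H h g w μ) =
      (-(C.q : ℂ)) ^ N * ∑ v : Fin n → K, ∑ w : W, P v w * ∑ μ : K,
        (if μ + C.σ μ = - H.f w w then (if C.σ μ = -(a * μ) then 1 else 0) - (C.q : ℂ)⁻¹ else 0)
          * ψ (C.σ μ * stdHerm C n v v) := by
    rw [Finset.sum_comm (s := (univ : Finset (Fin n → K))), Finset.mul_sum, Finset.mul_sum]
    refine Finset.sum_congr rfl fun w _ => ?_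
    rw [Finset.mul_sum]
    have e : ∀ μ : K, (-(C.q : ℂ)) ^ n *
        ((if μ + C.σ μ = - H.f w w then (if C.σ μ = -(a * μ) then 1 else 0) - (C.q : ℂ)⁻¹ else 0)
          * (-(C.q : ℂ)) ^ finrank K (Ssp H h g w μ)) = (-(C.q : ℂ)) ^ N * ∑ v : Fin n → K, P v w *
        ((if μ + C.σ μ = - H.f w w then (if C.σ μ = -(a * μ) then 1 else 0) - (C.q : ℂ)⁻¹ else 0)
          * ψ (C.σ μ * stdHerm C n v v)) := by
      intro μ
      by_cases hc : μ + C.σ μ = - H.f w w
      · simp only [if_pos hc]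
        have := A1 w μ hc
        rw [mul_left_comm, this, mul_left_comm, Finset.mul_sum]
        congr 1
        refine Finset.sum_congr rfl fun v _ => ?_
        ring
      · simp only [if_neg hc, mul_zero, zero_mul, Finset.sum_const_zero]
    rw [Finset.sum_congr rfl fun μ _ => e μ, ← Finset.mul_sum, Finset.sum_comm]
    congr 1
    refine Finset.sum_congr rfl fun v _ => ?_
    rw [Finset.mul_sum]
  rw [hL, hR]
  congr 1
  refine Finset.sum_congr rfl fun v _ => Finset.sum_congr rfl fun w _ => ?_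
  rw [scalar C ψ hψ a ha (stdHerm C n v v) (H.f w w) (TaskR.std_sig C v) (herm_self H w)]


open Classical in
theorem main_Q (a : K) (ha : a * C.σ a = 1) (H : Herm C W) {g : Matrix (Fin n) (Fin n) K}
    (hg : InGU C.q g) {h : W ≃ₗ[K] W} (hh : ∀ x y, H.f (h x) (h y) = H.f x y) :
    C.X ^ finrank K W * ∑ v : Fin n → K, ∑ ν : K,
      (if ν ≠ 0 ∧ ν + C.σ ν = - stdHerm C n v v ∧ C.σ ν = -(a * ν) then
        C.X ^ d2 C g h v ν else 0) =
    C.X ^ n * ∑ w : W, ∑ μ : K, wt H a w μ * kap H h g w μ := by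
  obtain ⟨ψ, hψ⟩ := C.exists_char
  have h1 := main_C ψ hψ a ha H hg hh
  have hX : ((C.X : ℚ) : ℂ) = -(C.q : ℂ) := by simp [Cj.X]
  apply Rat.cast_injective (α := ℂ)
  rw [Rat.cast_mul, Rat.cast_mul, Rat.cast_pow, Rat.cast_pow, hX, Rat.cast_sum, Rat.cast_sum]
  refine Eq.trans ?_ (h1.trans ?_)
  · congr 1
    refine Finset.sum_congr rfl fun v _ => ?_
    rw [Rat.cast_sum]
    refine Finset.sum_congr rfl fun ν _ => ?_
    split_ifs
    · rw [Rat.cast_pow, hX]
    · simp
  · congr 1
    refine Finset.sum_congr rfl fun w _ => ?_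
    rw [Rat.cast_sum]
    refine Finset.sum_congr rfl fun μ _ => ?_
    rw [Rat.cast_mul, kap, Rat.cast_pow, hX]
    congr 1
    unfold wt
    split_ifs <;> simp

theorem card_line0 (C : Cj K) : 
    (open Classical in (univ.filter (fun ν : K => ν ≠ 0 ∧ ν + C.σ ν = 0)).card) + 1 = C.q := by
  classical
  have h := C.card_tr 0 (map_zero _)
  rw [Nat.card_eq_fintype_card, Fintype.card_subtype] at h
  rw [← h]
  have : (univ.filter (fun ν : K => ν ≠ 0 ∧ ν + C.σ ν = 0)) =
      (univ.filter (fun x : K => x + C.σ x = 0)).erase 0 := by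
    ext x
    simp
  rw [this, Finset.card_erase_of_mem (by simp)]
  have : 0 < (univ.filter (fun x : K => x + C.σ x = 0)).card :=
    Finset.card_pos.2 ⟨0, by simp⟩
  omega

end concrete

end TaskA

open Classical in
/-- Task A (transfer identity). -/
theorem transfer (C : Cj K) (n : ℕ) (a : K) (ha : a ^ (C.q + 1) = 1)
    (g : Matrix (Fin n) (Fin n) K) (hg : InGU C.q g)
    (W : Type u) [AddCommGroup W] [Module K W] [Fintype W] (H : Herm C W)
    (h : W ≃ₗ[K] W) (hh : ∀ x y, H.f (h x) (h y) = H.f x y) (hk : finrank K W ≤ n) :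
    ((C.q : ℚ) ^ 2 - 1) * op (InGU C.q) C.X a (KR C h.toLinearMap.graph) g =
      C.X ^ (n - finrank K W) * (∑ w : W, ∑ μ : K, wt H a w μ * kap H h g w μ)
        - (open Classical in if a = 1 then
            ((C.q : ℚ) - 1) * C.X ^ n * KR C h.toLinearMap.graph g else 0) := by
  have ha' : a * C.σ a = 1 := (C.norm_one_iff a).1 ha
  have hq2 := C.two_le_q
  have hX0 : C.X ≠ 0 := by
    unfold Cj.X
    have : (C.q : ℚ) ≠ 0 := by exact_mod_cast (by omega : C.q ≠ 0)
    simpa using this
  -- the full sum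
  set LS := ∑ v : Fin n → K, ∑ ν : K,
      (if ν ≠ 0 ∧ ν + C.σ ν = - stdHerm C n v v ∧ C.σ ν = -(a * ν) then
        C.X ^ TaskA.d2 C g h v ν else 0) with hLS
  have hmain : LS = C.X ^ (n - finrank K W) * (∑ w : W, ∑ μ : K, wt H a w μ * kap H h g w μ) := by
    have h1 := TaskA.main_Q a ha' H hg hh
    have h2 : C.X ^ n = C.X ^ finrank K W * C.X ^ (n - finrank K W) := by
      rw [← pow_add]; congr 1; omega
    rw [h2, mul_assoc] at h1
    exact mul_left_cancel₀ (pow_ne_zero _ hX0) h1
  have hR := refl_param C n a ha (fun t => KR C h.toLinearMap.graph (g * t))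
  -- compare the two sums
  have hcmp : ∑ v : Fin n → K, ∑ ν : K,
        (if v ≠ 0 ∧ ν ≠ 0 ∧ ν + C.σ ν = - stdHerm C n v v ∧ C.σ ν = -(a * ν)
        then KR C h.toLinearMap.graph (g * tM C v ν) else 0)
      = LS - (if a = 1 then ((C.q : ℚ) - 1) * KR C h.toLinearMap.graph g else 0) := by
    have e1 : ∀ (v : Fin n → K) (ν : K),
        (if v ≠ 0 ∧ ν ≠ 0 ∧ ν + C.σ ν = - stdHerm C n v v ∧ C.σ ν = -(a * ν)
          then KR C h.toLinearMap.graph (g * tM C v ν) else 0)
        = (if ν ≠ 0 ∧ ν + C.σ ν = - stdHerm C n v v ∧ C.σ ν = -(a * ν) then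
            C.X ^ TaskA.d2 C g h v ν else 0)
          - (if v = 0 then (if a = 1 then (if ν ≠ 0 ∧ ν + C.σ ν = 0 then
              KR C h.toLinearMap.graph g else 0) else 0) else 0) := by
      intro v ν
      by_cases hv : v = 0
      · subst hv
        have hs0 : stdHerm C n (0 : Fin n → K) 0 = 0 := by simp [stdHerm]
        rw [if_neg (fun h => h.1 rfl), if_pos rfl, hs0, neg_zero]
        by_cases ha1 : a = 1
        · subst ha1
          rw [if_pos rfl]
          have hiff : (ν ≠ 0 ∧ ν + C.σ ν = 0 ∧ C.σ ν = -(1 * ν)) ↔ (ν ≠ 0 ∧ ν + C.σ ν = 0) := by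
            constructor
            · exact fun h => ⟨h.1, h.2.1⟩
            · exact fun h => ⟨h.1, h.2, by linear_combination h.2⟩
          by_cases hc : ν ≠ 0 ∧ ν + C.σ ν = 0
          · rw [if_pos (hiff.2 hc), if_pos hc, TaskA.d2_eq g h 0 ν hc.1 (by rw [hs0, neg_zero, hc.2])]
            have : tM C (0 : Fin n → K) ν = 1 := by
              unfold tM
              ext i j
              simp
            rw [this, mul_one, KR, sub_self]
          · rw [if_neg (fun h => hc (hiff.1 h)), if_neg hc, sub_zero]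
        · rw [if_neg ha1, sub_zero, if_neg]
          rintro ⟨h1, h2, h3⟩
          have : (1 - a) * ν = 0 := by linear_combination h2 - h3
          rcases mul_eq_zero.1 this with h | h
          · exact ha1 (sub_eq_zero.1 h).symm
          · exact h1 h
      · rw [if_neg hv, sub_zero]
        by_cases hc : ν ≠ 0 ∧ ν + C.σ ν = - stdHerm C n v v ∧ C.σ ν = -(a * ν)
        · rw [if_pos hc, if_pos ⟨hv, hc⟩, TaskA.d2_eq g h v ν hc.1 hc.2.1, KR]
        · rw [if_neg hc, if_neg (fun h => hc h.2)]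
    rw [Finset.sum_congr rfl fun v _ => Finset.sum_congr rfl fun ν _ => e1 v ν]
    simp only [Finset.sum_sub_distrib]
    congr 1
    have e2 : ∀ v : Fin n → K, ∑ ν : K, (if v = 0 then (if a = 1 then (if ν ≠ 0 ∧ ν + C.σ ν = 0 then
              KR C h.toLinearMap.graph g else 0) else 0) else 0)
        = if v = 0 then (∑ ν : K, (if a = 1 then (if ν ≠ 0 ∧ ν + C.σ ν = 0 then
              KR C h.toLinearMap.graph g else 0) else 0)) else 0 := by
      intro v
      split_ifs
      · rfl
      · simp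
      · simp
    rw [Finset.sum_congr rfl fun v _ => e2 v, Finset.sum_ite_eq']
    rw [if_pos (Finset.mem_univ _)]
    by_cases ha1 : a = 1
    · simp only [if_pos ha1]
      rw [← Finset.sum_filter, Finset.sum_const, nsmul_eq_mul]
      congr 1
      have hl := TaskA.card_line0 C
      have : ((univ.filter (fun ν : K => ν ≠ 0 ∧ ν + C.σ ν = 0)).card : ℚ) + 1 = C.q := by
        exact_mod_cast hl
      linear_combination this
    · simp only [if_neg ha1, Finset.sum_const_zero]
  have hop : op (InGU C.q) C.X a (KR C h.toLinearMap.graph) g =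
      ∑ t ∈ Rset (InGU C.q) a, KR C h.toLinearMap.graph (g * t) +
        if a = 1 then qInt C.X n * KR C h.toLinearMap.graph g else 0 := rfl
  rw [hop, mul_add, hR, hcmp, hmain]
  by_cases ha1 : a = 1
  · simp only [if_pos ha1]
    have hgeo : qInt C.X n * (C.X - 1) = C.X ^ n - 1 := geom_sum_mul _ _
    have hXq : C.X = -(C.q : ℚ) := rfl
    have h3 : ((C.q : ℚ) ^ 2 - 1) * qInt C.X n = - ((C.q : ℚ) - 1) * (C.X ^ n - 1) := by
      rw [← hgeo, hXq]
      ring
    linear_combination (KR C h.toLinearMap.graph g) * h3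
  · simp only [if_neg ha1]
    ring

end Pool.Agent.MP_359fef_co
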