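import Pool.Agent.Lib.MP_359fef_co.U0

/-!
Task R: parametrization of the reflections of determinant `a` in `GU_n(q)`.
-/

namespace Pool.Agent.MP_359fef_co

open Finset Matrix Module

universe u

variable {K : Type u} [Field K] [Fintype K] {C : Cj K}

/-- `t_{v,ν} = 1 + ν⁻¹ v v^*` -/
def tM (C : Cj K) {n : ℕ} (v : Fin n → K) (ν : K) : Matrix (Fin n) (Fin n) K :=
  1 + ν⁻¹ • vecMulVec v (fun i => C.σ (v i))

namespace TaskR

theorem map_q (C : Cj K) {n : ℕ} (g : Matrix (Fin n) (Fin n) K) :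
    gᵀ.map (fun x => x ^ C.q) = gᵀ.map C.σ := by
  ext i j
  simp [C.σ_apply]

theorem inGU_iff (C : Cj K) {n : ℕ} (g : Matrix (Fin n) (Fin n) K) :
    InGU C.q g ↔ g * gᵀ.map C.σ = 1 := by
  unfold InGU
  rw [map_q]

theorem sig_inv (C : Cj K) (x : K) : C.σ x⁻¹ = (C.σ x)⁻¹ := map_inv₀ C.σ x

theorem sig_ne (C : Cj K) {x : K} (hx : x ≠ 0) : C.σ x ≠ 0 := by
  intro h
  exact hx (C.σ.injective (by rw [h, map_zero]))

/-- conjugate transpose of `1 + c u r^T` -/
theorem star_rank (C : Cj K) {n : ℕ} (u r : Fin n → K) :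
    (1 + vecMulVec u r : Matrix (Fin n) (Fin n) K)ᵀ.map C.σ
      = 1 + vecMulVec (fun i => C.σ (r i)) (fun i => C.σ (u i)) := by
  ext i j
  simp only [Matrix.map_apply, Matrix.transpose_apply, Matrix.add_apply, vecMulVec_apply, map_add,
    map_mul, Matrix.one_apply]
  by_cases h : i = j
  · subst h; simp [mul_comm]
  · have h' : j ≠ i := fun e => h e.symm
    simp [h, h', mul_comm]

omit [Fintype K] in
theorem mul_rank {n : ℕ} (u r u' r' : Fin n → K) :
    (1 + vecMulVec u r : Matrix (Fin n) (Fin n) K) * (1 + vecMulVec u' r')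
      = 1 + (vecMulVec u r + vecMulVec u' r' + (r ⬝ᵥ u') • vecMulVec u r') := by
  rw [add_mul, mul_add, mul_add, one_mul, mul_one, one_mul]
  have : vecMulVec u r * vecMulVec u' r' = (r ⬝ᵥ u') • vecMulVec u r' := by
    rw [vecMulVec_mul_vecMulVec]
    ext i j
    simp [vecMulVec_apply, mul_comm, mul_left_comm]
  rw [this]
  abel

theorem tM_eq (C : Cj K) {n : ℕ} (v : Fin n → K) (ν : K) :
    tM C v ν = 1 + vecMulVec v (fun i => ν⁻¹ * C.σ (v i)) := by
  unfold tM
  ext i j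
  simp [vecMulVec_apply, mul_left_comm]

theorem tM_inGU (C : Cj K) {n : ℕ} (v : Fin n → K) (ν : K) (hν : ν ≠ 0)
    (h : ν + C.σ ν = - stdHerm C n v v) : InGU C.q (tM C v ν) := by
  rw [inGU_iff, tM_eq, star_rank, mul_rank]
  have hs := sig_ne C hν
  have e : (fun i => ν⁻¹ * C.σ (v i)) ⬝ᵥ (fun i => C.σ (ν⁻¹ * C.σ (v i)))
      = ν⁻¹ * (C.σ ν)⁻¹ * stdHerm C n v v := by
    unfold dotProduct stdHerm
    rw [Finset.mul_sum]
    refine Finset.sum_congr rfl fun i _ => ?_
    show ν⁻¹ * C.σ (v i) * C.σ (ν⁻¹ * C.σ (v i)) = _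
    rw [map_mul, C.σ_σ, sig_inv]
    ring
  rw [e]
  have : (vecMulVec v (fun i => ν⁻¹ * C.σ (v i)) +
      vecMulVec (fun i => C.σ (ν⁻¹ * C.σ (v i))) (fun i => C.σ (v i)) +
      (ν⁻¹ * (C.σ ν)⁻¹ * stdHerm C n v v) • vecMulVec v (fun i => C.σ (v i)) :
      Matrix (Fin n) (Fin n) K) = 0 := by
    ext i j
    simp only [Matrix.add_apply, vecMulVec_apply, Matrix.smul_apply, smul_eq_mul, map_mul, C.σ_σ,
      sig_inv, Matrix.zero_apply]
    have h2 : stdHerm C n v v = - (ν + C.σ ν) := by rw [h, neg_neg]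
    rw [h2]
    field_simp
    ring
  rw [this, add_zero]

omit [Fintype K] in
theorem det_rank {n : ℕ} (u r : Fin n → K) :
    (1 + vecMulVec u r : Matrix (Fin n) (Fin n) K).det = 1 + r ⬝ᵥ u := by
  have := Matrix.det_one_add_replicateCol_mul_replicateRow (ι := Unit) u r
  rw [← this]
  congr 2
  ext i j
  simp [vecMulVec_apply, Matrix.mul_apply]

theorem det_tM (C : Cj K) {n : ℕ} (v : Fin n → K) (ν : K) :
    (tM C v ν).det = 1 + ν⁻¹ * stdHerm C n v v := by
  rw [tM_eq, det_rank]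
  congr 1
  unfold dotProduct stdHerm
  rw [Finset.mul_sum]
  exact Finset.sum_congr rfl fun i _ => by ring

/-- the functional `x ↦ ⟨v,x⟩` -/
def fn (C : Cj K) {n : ℕ} (v : Fin n → K) : (Fin n → K) →ₗ[K] K where
  toFun x := ∑ i, C.σ (v i) * x i
  map_add' x y := by simp [mul_add, Finset.sum_add_distrib]
  map_smul' c x := by
    simp only [Pi.smul_apply, smul_eq_mul, RingHom.id_apply, Finset.mul_sum]
    exact Finset.sum_congr rfl fun i _ => by ring

omit [Fintype K] in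
theorem rank_mulVec {n : ℕ} (u r x : Fin n → K) :
    (1 + vecMulVec u r : Matrix (Fin n) (Fin n) K) *ᵥ x = x + (r ⬝ᵥ x) • u := by
  rw [Matrix.add_mulVec, Matrix.one_mulVec]
  congr 1
  ext i
  simp only [Matrix.mulVec, dotProduct, vecMulVec_apply, Pi.smul_apply, smul_eq_mul,
    Finset.sum_mul]
  exact Finset.sum_congr rfl fun j _ => by ring

theorem tM_ne_one (C : Cj K) {n : ℕ} {v : Fin n → K} (hv : v ≠ 0) {ν : K} (hν : ν ≠ 0) :
    tM C v ν ≠ 1 := by
  intro h
  obtain ⟨i, hi⟩ := Function.ne_iff.1 hv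
  have h1 := congrFun (congrFun h i) i
  rw [tM_eq] at h1
  simp only [Matrix.add_apply, vecMulVec_apply, Matrix.one_apply, if_true] at h1
  have h2 : v i * (ν⁻¹ * C.σ (v i)) = 0 := by
    have := h1
    simpa using this
  have hs := sig_ne C hi
  have hi' : v i ≠ 0 := hi
  simp [hi', hs, hν] at h2

theorem isRefl_tM (C : Cj K) {n : ℕ} {v : Fin n → K} (hv : v ≠ 0) {ν : K} (hν : ν ≠ 0) :
    IsRefl (tM C v ν) := by
  refine ⟨tM_ne_one C hv hν, LinearMap.ker (fn C v), ?_, ?_⟩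
  · have hne : fn C v ≠ 0 := by
      intro h
      obtain ⟨i, hi⟩ := Function.ne_iff.1 hv
      have h1 := congrArg (fun f => f (Pi.single i 1)) h
      simp only [fn, LinearMap.coe_mk, AddHom.coe_mk, Pi.single_apply, mul_ite, mul_one, mul_zero,
        Finset.sum_ite_eq', Finset.mem_univ, if_true, LinearMap.zero_apply] at h1
      exact sig_ne C hi h1
    have hr : finrank K (LinearMap.range (fn C v)) = 1 := by
      rw [LinearMap.range_eq_top.2 (LinearMap.surjective hne), finrank_top, finrank_self]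
    have := LinearMap.finrank_range_add_finrank_ker (fn C v)
    rw [hr, finrank_fintype_fun_eq_card, Fintype.card_fin] at this
    omega
  · intro x hx
    rw [tM_eq, rank_mulVec]
    have : (fun i => ν⁻¹ * C.σ (v i)) ⬝ᵥ x = ν⁻¹ * fn C v x := by
      simp only [dotProduct, fn, LinearMap.coe_mk, AddHom.coe_mk, Finset.mul_sum]
      exact Finset.sum_congr rfl fun j _ => by ring
    rw [this, LinearMap.mem_ker.1 hx]
    simp

omit [Fintype K] in
/-- a reflection is `1 + u r^T` -/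
theorem refl_rank {n : ℕ} {t : Matrix (Fin n) (Fin n) K} (ht : IsRefl t) :
    ∃ u r : Fin n → K, u ≠ 0 ∧ r ≠ 0 ∧ t = 1 + vecMulVec u r := by
  obtain ⟨hne, S, hS, hfix⟩ := ht
  have hlt : S < ⊤ := by
    rw [lt_top_iff_ne_top]
    intro h
    rw [h, finrank_top, finrank_fintype_fun_eq_card, Fintype.card_fin] at hS
    omega
  obtain ⟨f, hf0, hf⟩ := Submodule.exists_le_ker_of_lt_top S hlt
  have hr : finrank K (LinearMap.range f) = 1 := by
    rw [LinearMap.range_eq_top.2 (LinearMap.surjective hf0), finrank_top, finrank_self]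
  have h1 := LinearMap.finrank_range_add_finrank_ker f
  rw [hr, finrank_fintype_fun_eq_card, Fintype.card_fin] at h1
  have hk : S = LinearMap.ker f := Submodule.eq_of_le_of_finrank_eq hf (by omega)
  obtain ⟨x0, hx0⟩ := LinearMap.surjective hf0 1
  have key : ∀ x, t *ᵥ x = x + f x • (t *ᵥ x0 - x0) := by
    intro x
    have hm : x - f x • x0 ∈ S := by
      rw [hk, LinearMap.mem_ker, map_sub, map_smul, hx0]
      simp
    have h2 := hfix _ hm
    rw [Matrix.mulVec_sub, Matrix.mulVec_smul] at h2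
    rw [smul_sub]
    have h3 : t *ᵥ x = (t *ᵥ x - f x • t *ᵥ x0) + f x • t *ᵥ x0 := by abel
    rw [h3, h2]
    abel
  have ht : t = 1 + vecMulVec (t *ᵥ x0 - x0) (fun j => f (Pi.single j 1)) := by
    ext i j
    have h2 := congrFun (key (Pi.single j 1)) i
    rw [Matrix.mulVec_single_one] at h2
    simp only [Matrix.col_apply, Pi.add_apply, Pi.smul_apply, smul_eq_mul] at h2
    rw [h2]
    simp only [Matrix.add_apply, vecMulVec_apply, Matrix.one_apply, Pi.single_apply]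
    ring
  refine ⟨_, _, ?_, ?_, ht⟩
  · intro h
    rw [h] at ht
    apply hne
    rw [ht]
    ext i j
    simp
  · intro h
    rw [h] at ht
    apply hne
    rw [ht]
    ext i j
    simp

/-- every unitary reflection is some `t_{v,ν}` -/
theorem exists_tM (C : Cj K) {n : ℕ} {t : Matrix (Fin n) (Fin n) K} (ht : IsRefl t)
    (hU : InGU C.q t) : ∃ (v : Fin n → K) (ν : K), v ≠ 0 ∧ ν ≠ 0 ∧
      ν + C.σ ν = - stdHerm C n v v ∧ t = tM C v ν := by
  obtain ⟨u, r, hu, hr, rfl⟩ := refl_rank ht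
  rw [inGU_iff, star_rank, mul_rank] at hU
  have h0 : (vecMulVec u r + vecMulVec (fun i => C.σ (r i)) (fun i => C.σ (u i)) +
      (r ⬝ᵥ fun i => C.σ (r i)) • vecMulVec u (fun i => C.σ (u i)) :
      Matrix (Fin n) (Fin n) K) = 0 := by
    have := congrArg (fun z => z - 1) hU
    simpa using this
  set ρ := r ⬝ᵥ fun i => C.σ (r i) with hρ
  obtain ⟨j, hj⟩ := Function.ne_iff.1 hu
  have hj' : C.σ (u j) ≠ 0 := sig_ne C hj
  -- `σ r = c u`
  obtain ⟨c, hc⟩ : ∃ c : K, ∀ i, C.σ (r i) = c * u i := by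
    refine ⟨-(r j + ρ * C.σ (u j)) * (C.σ (u j))⁻¹, fun i => ?_⟩
    have h1 := congrFun (congrFun h0 i) j
    simp only [Matrix.add_apply, vecMulVec_apply, Matrix.smul_apply, smul_eq_mul,
      Matrix.zero_apply] at h1
    have h2 : C.σ (r i) * C.σ (u j) = -(r j + ρ * C.σ (u j)) * u i := by
      linear_combination h1
    rw [mul_right_comm, ← h2, mul_assoc, mul_inv_cancel₀ hj', mul_one]
  have hr' : ∀ i, r i = C.σ c * C.σ (u i) := by
    intro i
    rw [← map_mul, ← hc i, C.σ_σ]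
  have hc0 : c ≠ 0 := by
    rintro rfl
    apply hr
    ext i
    rw [hr' i]
    simp
  have hsc : C.σ c ≠ 0 := sig_ne C hc0
  refine ⟨u, (C.σ c)⁻¹, hu, inv_ne_zero hsc, ?_, ?_⟩
  · have h1 := congrFun (congrFun h0 j) j
    simp only [Matrix.add_apply, vecMulVec_apply, Matrix.smul_apply, smul_eq_mul,
      Matrix.zero_apply] at h1
    have hρ' : ρ = c * C.σ c * stdHerm C n u u := by
      rw [hρ]
      unfold dotProduct stdHerm
      rw [Finset.mul_sum]
      refine Finset.sum_congr rfl fun i _ => ?_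
      show r i * C.σ (r i) = _
      rw [hc i, hr' i]
      ring
    rw [hc j, hr' j, hρ'] at h1
    have hj2 : u j ≠ 0 := hj
    have h2 : (u j * C.σ (u j)) * (C.σ c + c + c * C.σ c * stdHerm C n u u) = 0 := by
      linear_combination h1
    have h3 : C.σ c + c + c * C.σ c * stdHerm C n u u = 0 := by
      rcases mul_eq_zero.1 h2 with h | h
      · exact absurd h (mul_ne_zero hj2 hj')
      · exact h
    rw [sig_inv, C.σ_σ]
    field_simp
    linear_combination h3
  · rw [tM_eq]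
    congr 2
    ext i
    rw [hr' i, inv_inv]

/-- the fibres of `(v,ν) ↦ t_{v,ν}` -/
theorem tM_eq_iff (C : Cj K) {n : ℕ} {v v0 : Fin n → K} (hv0 : v0 ≠ 0) {ν ν0 : K}
    (hν0 : ν0 ≠ 0) (hν : ν ≠ 0) (hv : v ≠ 0) :
    tM C v ν = tM C v0 ν0 ↔ ∃ l : K, l ≠ 0 ∧ v = l • v0 ∧ ν = l * C.σ l * ν0 := by
  constructor
  · intro h
    rw [tM_eq, tM_eq] at h
    have h1 : ∀ i j, v i * (ν⁻¹ * C.σ (v j)) = v0 i * (ν0⁻¹ * C.σ (v0 j)) := by
      intro i j
      have := congrFun (congrFun h i) j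
      simpa [vecMulVec_apply] using this
    obtain ⟨j, hj⟩ := Function.ne_iff.1 hv
    have hj' : C.σ (v j) ≠ 0 := sig_ne C hj
    have h2 : ∀ i, v i = (ν * (C.σ (v j))⁻¹ * (ν0⁻¹ * C.σ (v0 j))) * v0 i := by
      intro i
      have := h1 i j
      field_simp at this ⊢
      linear_combination this
    set l := ν * (C.σ (v j))⁻¹ * (ν0⁻¹ * C.σ (v0 j)) with hl
    have hl0 : l ≠ 0 := by
      intro h
      apply hv
      ext i
      rw [h2 i, h]
      simp
    refine ⟨l, hl0, ?_, ?_⟩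
    · ext i
      rw [h2 i]
      simp
    · obtain ⟨i, hi⟩ := Function.ne_iff.1 hv0
      have hi' : v0 i ≠ 0 := hi
      have hsi : C.σ (v0 i) ≠ 0 := sig_ne C hi
      have h3 := h1 i i
      rw [h2 i, map_mul] at h3
      field_simp at h3
      linear_combination -h3
  · rintro ⟨l, hl, rfl, rfl⟩
    rw [tM_eq, tM_eq]
    congr 1
    ext i j
    have hs := sig_ne C hl
    simp only [vecMulVec_apply, Pi.smul_apply, smul_eq_mul, map_mul]
    field_simp

/-- the condition on `(v,ν)` -/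
def good (C : Cj K) {n : ℕ} (a : K) (p : (Fin n → K) × K) : Prop :=
  p.1 ≠ 0 ∧ p.2 ≠ 0 ∧ p.2 + C.σ p.2 = - stdHerm C n p.1 p.1 ∧ C.σ p.2 = -(a * p.2)

theorem std_smul (C : Cj K) {n : ℕ} (l : K) (v : Fin n → K) :
    stdHerm C n (l • v) (l • v) = l * C.σ l * stdHerm C n v v := by
  unfold stdHerm
  rw [Finset.mul_sum]
  refine Finset.sum_congr rfl fun i _ => ?_
  simp only [Pi.smul_apply, smul_eq_mul, map_mul]
  ring

theorem std_sig (C : Cj K) {n : ℕ} (v : Fin n → K) :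
    C.σ (stdHerm C n v v) = stdHerm C n v v := by
  unfold stdHerm
  rw [map_sum]
  refine Finset.sum_congr rfl fun i _ => ?_
  rw [map_mul, C.σ_σ, mul_comm]

open Classical in
theorem good_mem (C : Cj K) {n : ℕ} (a : K) {p : (Fin n → K) × K} (hp : good C a p) :
    tM C p.1 p.2 ∈ Rset (InGU C.q) a := by
  obtain ⟨h1, h2, h3, h4⟩ := hp
  unfold Rset
  rw [Finset.mem_filter]
  refine ⟨Finset.mem_univ _, tM_inGU C _ _ h2 h3, isRefl_tM C h1 h2, ?_⟩
  rw [det_tM]
  have : stdHerm C n p.1 p.1 = -(p.2 + C.σ p.2) := by rw [h3, neg_neg]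
  rw [this, h4]
  field_simp
  ring

theorem good_smul (C : Cj K) {n : ℕ} (a : K) {p : (Fin n → K) × K} (hp : good C a p) {l : K}
    (hl : l ≠ 0) : good C a (l • p.1, l * C.σ l * p.2) := by
  obtain ⟨h1, h2, h3, h4⟩ := hp
  have hs := sig_ne C hl
  refine ⟨smul_ne_zero hl h1, by simp [hl, hs, h2], ?_, ?_⟩
  · simp only [map_mul, C.σ_σ, std_smul]
    linear_combination (l * C.σ l) * h3
  · simp only [map_mul, C.σ_σ, h4]
    ring

open Classical in
theorem card_fib (C : Cj K) {n : ℕ} (a : K) (t : Matrix (Fin n) (Fin n) K)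
    (ht : t ∈ Rset (InGU C.q) a) :
    (univ.filter (fun p : (Fin n → K) × K => good C a p ∧ tM C p.1 p.2 = t)).card
      = C.q ^ 2 - 1 := by
  unfold Rset at ht
  rw [Finset.mem_filter] at ht
  obtain ⟨-, hU, hR, hdet⟩ := ht
  obtain ⟨v0, ν0, hv0, hν0, htr, rfl⟩ := exists_tM C hR hU
  have hline : C.σ ν0 = -(a * ν0) := by
    rw [det_tM] at hdet
    have : stdHerm C n v0 v0 = -(ν0 + C.σ ν0) := by rw [htr, neg_neg]
    rw [this] at hdet
    rw [← hdet]
    field_simp
    ring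
  have hg0 : good C a (v0, ν0) := ⟨hv0, hν0, htr, hline⟩
  have hset : (univ.filter (fun p : (Fin n → K) × K => good C a p ∧ tM C p.1 p.2 = tM C v0 ν0))
      = (univ.filter (fun l : K => l ≠ 0)).image (fun l => (l • v0, l * C.σ l * ν0)) := by
    ext p
    simp only [Finset.mem_filter, Finset.mem_univ, true_and, Finset.mem_image]
    constructor
    · rintro ⟨hp, he⟩
      obtain ⟨l, hl, h1, h2⟩ := (tM_eq_iff C hv0 hν0 hp.2.1 hp.1).1 he
      exact ⟨l, hl, Prod.ext h1.symm h2.symm⟩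
    · rintro ⟨l, hl, rfl⟩
      have hg := good_smul C a hg0 hl
      exact ⟨hg, (tM_eq_iff C hv0 hν0 hg.2.1 hg.1).2 ⟨l, hl, rfl, rfl⟩⟩
  rw [hset, Finset.card_image_of_injective]
  · have : (univ.filter (fun l : K => l ≠ 0)) = univ.erase 0 := by
      ext l
      simp
    rw [this, Finset.card_erase_of_mem (Finset.mem_univ _), Finset.card_univ, C.card_eq]
  · intro l l' hll
    have h1 := congrArg Prod.fst hll
    simp only at h1
    exact smul_left_injective K hv0 h1

end TaskR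

open Classical in
/-- Task R -/
theorem refl_param (C : Cj K) (n : ℕ) (a : K) (ha : a ^ (C.q + 1) = 1)
    (φ : Matrix (Fin n) (Fin n) K → ℚ) :
    ((C.q : ℚ) ^ 2 - 1) * ∑ t ∈ Rset (InGU C.q) a, φ t =
      ∑ v : Fin n → K, ∑ ν : K,
        if v ≠ 0 ∧ ν ≠ 0 ∧ ν + C.σ ν = - stdHerm C n v v ∧ C.σ ν = -(a * ν)
        then φ (tM C v ν) else 0 := by
  rw [← Fintype.sum_prod_type' (f := fun (v : Fin n → K) (ν : K) =>
    if v ≠ 0 ∧ ν ≠ 0 ∧ ν + C.σ ν = - stdHerm C n v v ∧ C.σ ν = -(a * ν)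
        then φ (tM C v ν) else 0)]
  have e1 : ∑ p : (Fin n → K) × K, (if p.1 ≠ 0 ∧ p.2 ≠ 0 ∧ p.2 + C.σ p.2 = - stdHerm C n p.1 p.1 ∧
      C.σ p.2 = -(a * p.2) then φ (tM C p.1 p.2) else 0)
      = ∑ p ∈ univ.filter (fun p : (Fin n → K) × K => TaskR.good C a p), φ (tM C p.1 p.2) := by
    rw [Finset.sum_filter]
    refine Finset.sum_congr rfl fun p _ => ?_
    unfold TaskR.good
    congr
  rw [e1, ← Finset.sum_fiberwise_of_maps_to (s := univ.filter (fun p => TaskR.good C a p))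
    (t := Rset (InGU C.q) a) (g := fun p => tM C p.1 p.2)
    (fun p hp => TaskR.good_mem C a (Finset.mem_filter.1 hp).2), Finset.mul_sum]
  refine Finset.sum_congr rfl fun t ht => ?_
  have hc := TaskR.card_fib C a t ht
  rw [Finset.filter_filter]
  have e2 : ∑ p ∈ univ.filter (fun p : (Fin n → K) × K => TaskR.good C a p ∧ tM C p.1 p.2 = t),
      φ (tM C p.1 p.2) = ∑ p ∈ univ.filter
        (fun p : (Fin n → K) × K => TaskR.good C a p ∧ tM C p.1 p.2 = t), φ t :=
    Finset.sum_congr rfl fun p hp => by rw [(Finset.mem_filter.1 hp).2.2]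
  rw [e2, Finset.sum_const, hc, nsmul_eq_mul]
  have hq : 1 ≤ C.q ^ 2 := Nat.one_le_pow _ _ (by have := C.two_le_q; omega)
  push_cast [Nat.cast_sub hq]
  ring

end Pool.Agent.MP_359fef_co
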